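import Pool.Agent.X49.Deg.Graph

set_option autoImplicit false

/-!
# Ramsey colourings of `r`-sets of low degree
-/

namespace Pool.Agent.X49.Deg

open Finset Pool.Agent.TH17.LD Module MvPolynomial

/-- the `r m` coordinates of a tuple -/
def coords {F : Type} {r m : ℕ} (v : Fin r → Fin m → F) : Fin r × Fin m → F := fun a => v a.1 a.2

/-- the colour of every `r`-set is the value of `g` at the values of the polynomials at the
coordinates of the `r` points, listed in at least one order -/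
def SetGivenBy {F κ : Type} [Field F] {r m s : ℕ} (f : Fin s → MvPolynomial (Fin r × Fin m) F)
    (c : Finset (Fin m → F) → κ) : Prop :=
  ∃ g : (Fin s → F) → κ, ∀ A : Finset (Fin m → F), A.card = r → ∃ v : Fin r → Fin m → F,
    (∀ i, v i ∈ A) ∧ c A = g (fun j => eval (coords v) (f j))

theorem set_homogeneous (F : Type) [Field F] [Fintype F] (κ : Type) (r m s D u : ℕ)
    (f : Fin s → MvPolynomial (Fin r × Fin m) F) (c : Finset (Fin m → F) → κ)
    (hf : ∀ j, (f j).totalDegree ≤ D) (hc : SetGivenBy f c)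
    (hm : s * (r * D * (r * u + (D - 1)).choose (D - 1)) + u ≤ m) :
    ∃ (U : Submodule F (Fin m → F)) (t : κ), finrank F U = u ∧
      ∀ A : Finset (Fin m → F), A.card = r → (∀ x ∈ A, x ∈ U) → c A = t := by
  classical
  obtain ⟨g, hg⟩ := hc
  obtain ⟨U, hU, h⟩ := exists_subspace (F := F) (ι := Fin r) (μ := Fin m) (D := D)
    (fun (j : Fin s) z => eval z (f j) - eval 0 (f j))
    (fun j => Submodule.sub_mem _ (P_mono (hf j) (eval_mem (f j))) (const_mem _ _))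
    (fun j => sub_self _) u (by
      simp only [Fintype.card_fin]
      refine le_trans (le_of_eq ?_) hm
      ring)
  refine ⟨U, g (fun j => eval 0 (f j)), hU, ?_⟩
  intro A hA hAU
  obtain ⟨v, hv, hcv⟩ := hg A hA
  rw [hcv]
  congr 1
  funext j
  have h1 := h v (fun i => hAU _ (hv i)) j
  rw [sub_eq_zero] at h1
  exact h1

/-- all `r`-subsets of `S` have the same colour -/
def Homog {V κ : Type} (r : ℕ) (c : Finset V → κ) (S : Finset V) : Prop :=
  ∀ A ⊆ S, ∀ B ⊆ S, A.card = r → B.card = r → c A = c B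

theorem set_card_lt {F κ : Type} [Field F] [Fintype F] {r m s D u n : ℕ}
    (f : Fin s → MvPolynomial (Fin r × Fin m) F) (c : Finset (Fin m → F) → κ)
    (hf : ∀ j, (f j).totalDegree ≤ D) (hc : SetGivenBy f c)
    (hn : ∀ S : Finset (Fin m → F), S.card = n → ¬ Homog r c S)
    (hu : n ≤ Fintype.card F ^ u) :
    m < s * (r * D * (r * u + (D - 1)).choose (D - 1)) + u := by
  classical
  by_contra hcon
  obtain ⟨U, t, hU, h⟩ := set_homogeneous F κ r m s D u f c hf hc (not_lt.1 hcon)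
  have hcard : Fintype.card U = Fintype.card F ^ u := by
    rw [← hU, ← Nat.card_eq_fintype_card (α := F),
      ← Module.natCard_eq_pow_finrank (K := F) (V := U), Nat.card_eq_fintype_card]
  obtain ⟨T, hT, hTk⟩ := Finset.exists_subset_card_eq (s := (univ : Finset U)) (n := n)
    (by rw [Finset.card_univ, hcard]; exact hu)
  have hinj : Function.Injective (fun x : U => (x : Fin m → F)) := Subtype.val_injective
  have hmem : ∀ x ∈ T.map ⟨fun x : U => (x : Fin m → F), hinj⟩, x ∈ U := by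
    intro x hx
    obtain ⟨y, -, rfl⟩ := Finset.mem_map.1 hx
    exact y.2
  refine hn (T.map ⟨_, hinj⟩) (by rw [Finset.card_map, hTk]) ?_
  intro A hA B hB hA1 hB1
  rw [h A hA1 fun x hx => hmem x (hA hx), h B hB1 fun x hx => hmem x (hB hx)]

/-- numerical part for fixed degree -/
theorem num_fixed (q r D : ℕ) (hq : 2 ≤ q) (hD : 2 ≤ D) : ∃ C : ℝ, 0 < C ∧ ∀ m s n : ℕ, 2 ≤ n →
    m < s * (r * D * (r * Nat.clog q n + (D - 1)).choose (D - 1)) + Nat.clog q n →
    m * Real.log q ≤ C * (s + 1) * (Real.log n) ^ (D - 1) := by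
  have hq2' : (2 : ℝ) ≤ q := by exact_mod_cast hq
  have hlq : 0 < Real.log q := Real.log_pos (by linarith)
  have hl2 : 0 < Real.log 2 := Real.log_pos (by norm_num)
  refine ⟨Real.log q * (r * D * (3 * (r + D)) ^ (D - 1) + 3 / (Real.log 2) ^ (D - 2)),
    by positivity, fun m s n hn hlt => ?_⟩
  have hn' : (2 : ℝ) ≤ n := by exact_mod_cast hn
  set ℓ := Real.log n with hℓ
  have hℓ2 : Real.log 2 ≤ ℓ := Real.log_le_log (by norm_num) hn'
  have hℓ0 : 0 < ℓ := lt_of_lt_of_le hl2 hℓ2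
  obtain ⟨u1, u2⟩ := clog_bound hq hn
  set u := Nat.clog q n with hu
  have hmR : (m : ℝ) ≤ s * (r * D * (3 * (r + D)) ^ (D - 1) * ℓ ^ (D - 1)) + 3 * ℓ := by
    have h1 : (m : ℝ) ≤ s * (r * D * ((r * u + (D - 1)).choose (D - 1) : ℕ)) + u := by
      exact_mod_cast hlt.le
    have h2 : (((r * u + (D - 1)).choose (D - 1) : ℕ) : ℝ) ≤ (3 * (r + D) * ℓ) ^ (D - 1) := by
      have h3 : (((r * u + (D - 1)).choose (D - 1) : ℕ) : ℝ) ≤
          ((r * u + (D - 1) : ℕ) : ℝ) ^ (D - 1) := by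
        exact_mod_cast Nat.choose_le_pow _ _
      refine h3.trans (pow_le_pow_left₀ (Nat.cast_nonneg _) ?_ _)
      push_cast
      have h4 : ((D - 1 : ℕ) : ℝ) ≤ D := by
        exact_mod_cast Nat.sub_le D 1
      have h5 : (0 : ℝ) ≤ D := Nat.cast_nonneg _
      have h5' : (0 : ℝ) ≤ r := Nat.cast_nonneg _
      have h6 : (D : ℝ) ≤ D * u := by nlinarith
      have h7 : (r : ℝ) * u + D * u ≤ (r + D) * (3 * ℓ) := by nlinarith
      nlinarith
    have h8 : (s : ℝ) * (r * D * ((r * u + (D - 1)).choose (D - 1) : ℕ)) ≤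
        s * (r * D * (3 * (r + D) * ℓ) ^ (D - 1)) := by gcongr
    have h9 : (3 * ((r : ℝ) + D) * ℓ) ^ (D - 1) = (3 * (r + D)) ^ (D - 1) * ℓ ^ (D - 1) := by
      rw [mul_pow]
    rw [h9] at h8
    calc (m : ℝ) ≤ s * (r * D * ((3 * (r + D)) ^ (D - 1) * ℓ ^ (D - 1))) + 3 * ℓ := by linarith
      _ = _ := by ring
  have hpow : ℓ ≤ ℓ ^ (D - 1) / (Real.log 2) ^ (D - 2) := by
    rw [le_div_iff₀ (by positivity)]
    have e : D - 1 = (D - 2) + 1 := by omega
    rw [e, pow_succ']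
    exact mul_le_mul_of_nonneg_left (pow_le_pow_left₀ hl2.le hℓ2 _) hℓ0.le
  have hs : (0 : ℝ) ≤ s := Nat.cast_nonneg s
  have hA : (0 : ℝ) ≤ r * D * (3 * (r + D)) ^ (D - 1) * ℓ ^ (D - 1) := by positivity
  calc (m : ℝ) * Real.log q
      ≤ (s * (r * D * (3 * (r + D)) ^ (D - 1) * ℓ ^ (D - 1)) + 3 * ℓ) * Real.log q :=
        mul_le_mul_of_nonneg_right hmR hlq.le
    _ ≤ ((s + 1) * (r * D * (3 * (r + D)) ^ (D - 1) * ℓ ^ (D - 1)) +
          (s + 1) * (3 * (ℓ ^ (D - 1) / (Real.log 2) ^ (D - 2)))) * Real.log q := by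
        apply mul_le_mul_of_nonneg_right _ hlq.le
        apply add_le_add
        · exact mul_le_mul_of_nonneg_right (by linarith) hA
        · have h10 : (0 : ℝ) ≤ 3 * (ℓ ^ (D - 1) / (Real.log 2) ^ (D - 2)) := by positivity
          calc 3 * ℓ ≤ 1 * (3 * (ℓ ^ (D - 1) / (Real.log 2) ^ (D - 2))) := by linarith
            _ ≤ _ := mul_le_mul_of_nonneg_right (by linarith) h10
    _ = _ := by ring

/-- numerical part for degree at most `δ log n` -/
theorem num_log (q r : ℕ) (hq : 2 ≤ q) (η : ℝ) (hη : 0 < η) :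
    ∃ δ : ℝ, 0 < δ ∧ ∃ n₀ : ℕ, ∀ n : ℕ, n₀ ≤ n → ∀ m s D : ℕ, (D : ℝ) ≤ δ * Real.log n →
      m < s * (r * D * (r * Nat.clog q n + (D - 1)).choose (D - 1)) + Nat.clog q n →
      m * Real.log q ≤ (s + 1) * (n : ℝ) ^ η := by
  have hq2' : (2 : ℝ) ≤ q := by exact_mod_cast hq
  have hlq : 0 < Real.log q := Real.log_pos (by linarith)
  have hr0 : (0 : ℝ) ≤ r := Nat.cast_nonneg _
  -- parameters
  obtain ⟨t, ht, ht1, htη⟩ : ∃ t : ℝ, 0 < t ∧ t ≤ 1 / 2 ∧ (3 * r + 1) * t ≤ η / 4 :=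
    ⟨min (1 / 2) (η / (4 * (3 * r + 1))), by positivity, min_le_left _ _, by
      have := min_le_right (1 / 2) (η / (4 * (3 * (r : ℝ) + 1)))
      calc (3 * (r : ℝ) + 1) * min (1 / 2) (η / (4 * (3 * r + 1)))
          ≤ (3 * r + 1) * (η / (4 * (3 * r + 1))) := mul_le_mul_of_nonneg_left this (by positivity)
        _ = η / 4 := by field_simp⟩
  have hlt : 0 < Real.log (1 / t) := Real.log_pos (by rw [lt_div_iff₀ ht]; linarith)
  obtain ⟨δ, hδ, hδ1, hδη⟩ : ∃ δ : ℝ, 0 < δ ∧ δ ≤ 1 ∧ δ * Real.log (1 / t) ≤ η / 4 :=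
    ⟨min 1 (η / 4 / Real.log (1 / t)), by positivity, min_le_left _ _, by
      have := min_le_right 1 (η / 4 / Real.log (1 / t))
      rw [← le_div_iff₀ hlt]
      exact this⟩
  -- the threshold
  have hev : ∀ᶠ n : ℕ in Filter.atTop, 4 * (r + 3) / η * Real.log q ≤ (n : ℝ) ^ (η / 4) :=
    ((tendsto_rpow_atTop (show 0 < η / 4 by positivity)).comp
      tendsto_natCast_atTop_atTop).eventually_ge_atTop _
  obtain ⟨n₁, hn₁⟩ := Filter.eventually_atTop.1 hev
  refine ⟨δ, hδ, max 2 n₁, fun n hn m s D hD hlt2 => ?_⟩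
  have hn2 : 2 ≤ n := (le_max_left _ _).trans hn
  have hnt := hn₁ n ((le_max_right _ _).trans hn)
  have hn' : (2 : ℝ) ≤ n := by exact_mod_cast hn2
  have hn0 : (0 : ℝ) < n := by linarith
  set ℓ := Real.log n with hℓ
  have hℓ0 : 0 < ℓ := Real.log_pos (by linarith)
  obtain ⟨u1, u2⟩ := clog_bound hq hn2
  set u := Nat.clog q n with hu
  have hDl : (D : ℝ) ≤ ℓ := hD.trans (by nlinarith)
  have hchoose : (((r * u + (D - 1)).choose (D - 1) : ℕ) : ℝ) ≤ (n : ℝ) ^ (η / 2) := by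
    have h1 : ((r * u + (D - 1) : ℕ) : ℝ) ≤ (3 * r + 1) * ℓ := by
      have h2 : ((r * u + (D - 1) : ℕ) : ℝ) ≤ ((r * u + D : ℕ) : ℝ) := by
        exact_mod_cast (by omega : r * u + (D - 1) ≤ r * u + D)
      refine h2.trans ?_
      push_cast
      nlinarith
    have h3 : ((D - 1 : ℕ) : ℝ) ≤ δ * ℓ := by
      refine le_trans ?_ hD
      exact_mod_cast Nat.sub_le D 1
    refine (choose_exp ht (by linarith) h1 h3).trans ?_
    rw [Real.rpow_def_of_pos hn0]
    apply Real.exp_le_exp.2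
    rw [← hℓ]
    have h4 : t * ((3 * r + 1) * ℓ) ≤ η / 4 * ℓ := by nlinarith
    have h5 : δ * ℓ * Real.log (1 / t) ≤ η / 4 * ℓ := by nlinarith
    linarith
  have hs : (0 : ℝ) ≤ s := Nat.cast_nonneg s
  have hkη : (1 : ℝ) ≤ (n : ℝ) ^ (η / 2) := Real.one_le_rpow (by linarith) (by positivity)
  have hmR : (m : ℝ) ≤ (s + 1) * ((r + 3) * ℓ * (n : ℝ) ^ (η / 2)) := by
    have h1 : (m : ℝ) ≤ s * (r * D * ((r * u + (D - 1)).choose (D - 1) : ℕ)) + u := by
      exact_mod_cast hlt2.le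
    have h2 : (s : ℝ) * (r * D * ((r * u + (D - 1)).choose (D - 1) : ℕ)) ≤
        s * (r * ℓ * (n : ℝ) ^ (η / 2)) := by gcongr
    have h3 : (u : ℝ) ≤ 3 * ℓ * (n : ℝ) ^ (η / 2) := by nlinarith
    have h4 : (0 : ℝ) ≤ ℓ * (n : ℝ) ^ (η / 2) := by positivity
    have h5 : (0 : ℝ) ≤ s * (ℓ * (n : ℝ) ^ (η / 2)) := by positivity
    have h6 : (0 : ℝ) ≤ r * (ℓ * (n : ℝ) ^ (η / 2)) := by positivity
    nlinarith
  have hℓk : ℓ ≤ (n : ℝ) ^ (η / 4) / (η / 4) := Real.log_le_rpow_div hn0.le (by positivity)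
  have e1 : (n : ℝ) ^ η = (n : ℝ) ^ (η / 4) * (n : ℝ) ^ (η / 4) * (n : ℝ) ^ (η / 2) := by
    rw [← Real.rpow_add hn0, ← Real.rpow_add hn0]
    congr 1
    ring
  have hp4 : 0 < (n : ℝ) ^ (η / 4) := by positivity
  have h5 : (r + 3) * ℓ * Real.log q ≤ (n : ℝ) ^ (η / 4) * (n : ℝ) ^ (η / 4) := by
    have h6 : (r + 3) * ℓ ≤ 4 * (r + 3) / η * (n : ℝ) ^ (η / 4) := by
      have e2 : (n : ℝ) ^ (η / 4) / (η / 4) = 4 / η * (n : ℝ) ^ (η / 4) := by
        field_simp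
      rw [e2] at hℓk
      have e : 4 * ((r : ℝ) + 3) / η * (n : ℝ) ^ (η / 4) =
          (r + 3) * (4 / η * (n : ℝ) ^ (η / 4)) := by ring
      rw [e]
      exact mul_le_mul_of_nonneg_left hℓk (by positivity)
    calc (r + 3) * ℓ * Real.log q ≤ 4 * (r + 3) / η * (n : ℝ) ^ (η / 4) * Real.log q :=
          mul_le_mul_of_nonneg_right h6 hlq.le
      _ = (4 * (r + 3) / η * Real.log q) * (n : ℝ) ^ (η / 4) := by ring
      _ ≤ _ := mul_le_mul_of_nonneg_right hnt hp4.le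
  calc (m : ℝ) * Real.log q ≤ (s + 1) * ((r + 3) * ℓ * (n : ℝ) ^ (η / 2)) * Real.log q :=
        mul_le_mul_of_nonneg_right hmR hlq.le
    _ = (s + 1) * (((r + 3) * ℓ * Real.log q) * (n : ℝ) ^ (η / 2)) := by ring
    _ ≤ (s + 1) * (((n : ℝ) ^ (η / 4) * (n : ℝ) ^ (η / 4)) * (n : ℝ) ^ (η / 2)) := by
        gcongr
    _ = _ := by rw [e1]

theorem log_card (F : Type) [Fintype F] (m : ℕ) :
    Real.log (Fintype.card (Fin m → F)) = m * Real.log (Fintype.card F) := by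
  rw [Fintype.card_fun, Fintype.card_fin, Nat.cast_pow, Real.log_pow]

end Pool.Agent.X49.Deg
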