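import Pool.Agent.X49.Deg.Sub
import Pool.Agent.H161R3.Lower

set_option autoImplicit false

/-!
# Ramsey colourings of low degree
-/

namespace Pool.Agent.X49.Deg

open Finset Pool.Agent.TH17.LD Module MvPolynomial

/-- the `2 m` coordinates of the pair `(x, y)` -/
def pair {F : Type} {m : ℕ} (x y : Fin m → F) : Fin 2 × Fin m → F :=
  fun a => if a.1 = 0 then x a.2 else y a.2

/-- for any two points the colour is the value of `g` at the values of the polynomials, for at least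
one of the two orders of the points -/
def GivenBy {F κ : Type} [Field F] {m s : ℕ} (f : Fin s → MvPolynomial (Fin 2 × Fin m) F)
    (c : (Fin m → F) → (Fin m → F) → κ) : Prop :=
  ∃ g : (Fin s → F) → κ, ∀ x y, x ≠ y →
    c x y = g (fun j => eval (pair x y) (f j)) ∨ c x y = g (fun j => eval (pair y x) (f j))

theorem homogeneous (F : Type) [Field F] [Fintype F] (κ : Type) (m s D u : ℕ)
    (f : Fin s → MvPolynomial (Fin 2 × Fin m) F) (c : (Fin m → F) → (Fin m → F) → κ)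
    (hf : ∀ j, (f j).totalDegree ≤ D) (hc : GivenBy f c)
    (hm : s * (2 * D * (2 * u + (D - 1)).choose (D - 1)) + u ≤ m) :
    ∃ (U : Submodule F (Fin m → F)) (t : κ), finrank F U = u ∧
      ∀ x ∈ U, ∀ y ∈ U, x ≠ y → c x y = t := by
  classical
  obtain ⟨g, hg⟩ := hc
  obtain ⟨U, hU, h⟩ := exists_subspace (F := F) (ι := Fin 2) (μ := Fin m) (D := D)
    (fun (j : Fin s) z => eval z (f j) - eval 0 (f j))
    (fun j => Submodule.sub_mem _ (P_mono (hf j) (eval_mem (f j))) (const_mem _ _))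
    (fun j => sub_self _) u (by
      simp only [Fintype.card_fin]
      refine le_trans (le_of_eq ?_) hm
      ring)
  refine ⟨U, g (fun j => eval 0 (f j)), hU, ?_⟩
  have key : ∀ x ∈ U, ∀ y ∈ U, (fun j => eval (pair x y) (f j)) = fun j => eval 0 (f j) := by
    intro x hx y hy
    funext j
    have h1 := h (fun i => if i = 0 then x else y) (fun i => by
      by_cases hi : i = 0
      · simp only [hi, if_true]; exact hx
      · simp only [hi, if_false]; exact hy) j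
    rw [sub_eq_zero] at h1
    rw [← h1]
    congr 2
    funext a
    by_cases ha : a.1 = 0
    · simp [pair, ha]
    · simp [pair, ha]
  intro x hx y hy hxy
  rcases hg x y hxy with h1 | h1
  · rw [h1, key x hx y hy]
  · rw [h1, key y hy x hx]

/-- no monochromatic set of size `k` -/
def NoMono {V : Type} (G : SimpleGraph V) (k : ℕ) : Prop := G.CliqueFree k ∧ Gᶜ.CliqueFree k

theorem card_lt {F : Type} [Field F] [Fintype F] {m s D u k : ℕ}
    (f : Fin s → MvPolynomial (Fin 2 × Fin m) F) (G : SimpleGraph (Fin m → F))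
    (hf : ∀ j, (f j).totalDegree ≤ D) (hG : GivenBy f G.Adj) (hk : NoMono G k)
    (hu : k ≤ Fintype.card F ^ u) :
    m < s * (2 * D * (2 * u + (D - 1)).choose (D - 1)) + u := by
  classical
  by_contra hcon
  obtain ⟨U, t, hU, h⟩ := homogeneous F Prop m s D u f G.Adj hf hG (not_lt.1 hcon)
  have hcard : Fintype.card U = Fintype.card F ^ u := by
    rw [← hU, ← Nat.card_eq_fintype_card (α := F),
      ← Module.natCard_eq_pow_finrank (K := F) (V := U), Nat.card_eq_fintype_card]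
  obtain ⟨T, hT, hTk⟩ := Finset.exists_subset_card_eq (s := (univ : Finset U)) (n := k)
    (by rw [Finset.card_univ, hcard]; exact hu)
  have hinj : Function.Injective (fun x : U => (x : Fin m → F)) := Subtype.val_injective
  have hTc : (T.map ⟨_, hinj⟩).card = k := by rw [Finset.card_map, hTk]
  have hmem : ∀ x ∈ T.map ⟨fun x : U => (x : Fin m → F), hinj⟩, x ∈ U := by
    intro x hx
    obtain ⟨y, -, rfl⟩ := Finset.mem_map.1 hx
    exact y.2
  by_cases ht : t
  · refine hk.1 (T.map ⟨_, hinj⟩) ⟨?_, hTc⟩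
    intro x hx y hy hxy
    have := h x (hmem x hx) y (hmem y hy) hxy
    rw [this]; exact ht
  · refine hk.2 (T.map ⟨_, hinj⟩) ⟨?_, hTc⟩
    intro x hx y hy hxy
    have := h x (hmem x hx) y (hmem y hy) hxy
    rw [SimpleGraph.compl_adj]
    refine ⟨hxy, ?_⟩
    rw [this]; exact ht

theorem clog_bound {q k : ℕ} (hq : 2 ≤ q) (hk : 2 ≤ k) :
    (1 : ℝ) ≤ Nat.clog q k ∧ (Nat.clog q k : ℝ) ≤ 3 * Real.log k := by
  have h1 : 1 ≤ Nat.clog q k := Nat.clog_pos (by omega) (by omega)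
  refine ⟨by exact_mod_cast h1, ?_⟩
  have h2 : q ^ (Nat.clog q k - 1) < k := by
    have := Nat.pow_pred_clog_lt_self (b := q) (by omega) (x := k) (by omega)
    simpa using this
  have hq' : (2 : ℝ) ≤ q := by exact_mod_cast hq
  have hk' : (2 : ℝ) ≤ k := by exact_mod_cast hk
  have h3 : ((Nat.clog q k - 1 : ℕ) : ℝ) * Real.log q ≤ Real.log k := by
    rw [← Real.log_pow]
    apply Real.log_le_log (by positivity)
    exact_mod_cast h2.le
  have h4 : Real.log 2 ≤ Real.log q := Real.log_le_log (by norm_num) hq'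
  have h5 : Real.log 2 ≤ Real.log k := Real.log_le_log (by norm_num) hk'
  have h6 := Real.log_two_gt_d9
  have h7 : ((Nat.clog q k - 1 : ℕ) : ℝ) * Real.log 2 ≤ Real.log k :=
    le_trans (mul_le_mul_of_nonneg_left h4 (Nat.cast_nonneg _)) h3
  rw [Nat.cast_sub h1, Nat.cast_one] at h7
  nlinarith

/-- fixed degree -/
theorem fixed_degree (F : Type) [Field F] [Fintype F] (D : ℕ) (hD : 2 ≤ D) :
    ∃ C : ℝ, 0 < C ∧ ∀ (m s k : ℕ) (f : Fin s → MvPolynomial (Fin 2 × Fin m) F)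
      (G : SimpleGraph (Fin m → F)), 2 ≤ k → (∀ j, (f j).totalDegree ≤ D) → GivenBy f G.Adj →
      NoMono G k →
      Real.log (Fintype.card (Fin m → F)) ≤ C * (s + 1) * (Real.log k) ^ (D - 1) := by
  obtain ⟨q, hq⟩ : ∃ q, q = Fintype.card F := ⟨_, rfl⟩
  have hq2 : 2 ≤ q := by rw [hq]; exact Fintype.one_lt_card
  have hq2' : (2 : ℝ) ≤ q := by exact_mod_cast hq2
  have hlq : 0 < Real.log q := Real.log_pos (by linarith)
  have hl2 : 0 < Real.log 2 := Real.log_pos (by norm_num)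
  refine ⟨Real.log q * (2 * D * (3 * (D + 1)) ^ (D - 1) + 3 / (Real.log 2) ^ (D - 2)),
    by positivity, fun m s k f G hk hf hG hno => ?_⟩
  have hk' : (2 : ℝ) ≤ k := by exact_mod_cast hk
  set ℓ := Real.log k with hℓ
  have hℓ2 : Real.log 2 ≤ ℓ := Real.log_le_log (by norm_num) hk'
  have hℓ0 : 0 < ℓ := lt_of_lt_of_le hl2 hℓ2
  obtain ⟨u1, u2⟩ := clog_bound hq2 hk
  set u := Nat.clog q k with hu
  have hlt := card_lt f G hf hG hno (u := u) (by
    rw [← hq]; exact Nat.le_pow_clog (by omega) k)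
  have hmR : (m : ℝ) ≤ s * (2 * D * (3 * (D + 1)) ^ (D - 1) * ℓ ^ (D - 1)) + 3 * ℓ := by
    have h1 : (m : ℝ) ≤ s * (2 * D * ((2 * u + (D - 1)).choose (D - 1) : ℕ)) + u := by
      exact_mod_cast hlt.le
    have h2 : (((2 * u + (D - 1)).choose (D - 1) : ℕ) : ℝ) ≤ (3 * (D + 1) * ℓ) ^ (D - 1) := by
      have h3 : (((2 * u + (D - 1)).choose (D - 1) : ℕ) : ℝ) ≤
          ((2 * u + (D - 1) : ℕ) : ℝ) ^ (D - 1) := by
        exact_mod_cast Nat.choose_le_pow _ _
      refine h3.trans (pow_le_pow_left₀ (Nat.cast_nonneg _) ?_ _)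
      push_cast
      have h4 : ((D - 1 : ℕ) : ℝ) = D - 1 := by
        rw [Nat.cast_sub (by omega), Nat.cast_one]
      rw [h4]
      have h5 : (2 : ℝ) ≤ D := by exact_mod_cast hD
      have h6 : (D - 1 : ℝ) ≤ (D - 1) * u := by nlinarith
      have h7 : (2 : ℝ) * u + (D - 1) * u ≤ (D + 1) * (3 * ℓ) := by nlinarith
      nlinarith
    have h8 : (s : ℝ) * (2 * D * ((2 * u + (D - 1)).choose (D - 1) : ℕ)) ≤
        s * (2 * D * (3 * (D + 1) * ℓ) ^ (D - 1)) := by gcongr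
    have h9 : (3 * ((D : ℝ) + 1) * ℓ) ^ (D - 1) = (3 * (D + 1)) ^ (D - 1) * ℓ ^ (D - 1) := by
      rw [mul_pow]
    rw [h9] at h8
    calc (m : ℝ) ≤ s * (2 * D * ((3 * (D + 1)) ^ (D - 1) * ℓ ^ (D - 1))) + 3 * ℓ := by linarith
      _ = _ := by ring
  have hcard : Real.log (Fintype.card (Fin m → F)) = m * Real.log q := by
    rw [Fintype.card_fun, Fintype.card_fin, ← hq, Nat.cast_pow, Real.log_pow]
  rw [hcard]
  have hpow : ℓ ≤ ℓ ^ (D - 1) / (Real.log 2) ^ (D - 2) := by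
    rw [le_div_iff₀ (by positivity)]
    have e : D - 1 = (D - 2) + 1 := by omega
    rw [e, pow_succ']
    exact mul_le_mul_of_nonneg_left (pow_le_pow_left₀ hl2.le hℓ2 _) hℓ0.le
  have hs : (0 : ℝ) ≤ s := Nat.cast_nonneg s
  have hA : (0 : ℝ) ≤ 2 * D * (3 * (D + 1)) ^ (D - 1) * ℓ ^ (D - 1) := by positivity
  calc (m : ℝ) * Real.log q
      ≤ (s * (2 * D * (3 * (D + 1)) ^ (D - 1) * ℓ ^ (D - 1)) + 3 * ℓ) * Real.log q :=
        mul_le_mul_of_nonneg_right hmR hlq.le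
    _ ≤ ((s + 1) * (2 * D * (3 * (D + 1)) ^ (D - 1) * ℓ ^ (D - 1)) +
          (s + 1) * (3 * (ℓ ^ (D - 1) / (Real.log 2) ^ (D - 2)))) * Real.log q := by
        apply mul_le_mul_of_nonneg_right _ hlq.le
        apply add_le_add
        · exact mul_le_mul_of_nonneg_right (by linarith) hA
        · have h10 : (0 : ℝ) ≤ 3 * (ℓ ^ (D - 1) / (Real.log 2) ^ (D - 2)) := by positivity
          calc 3 * ℓ ≤ 1 * (3 * (ℓ ^ (D - 1) / (Real.log 2) ^ (D - 2))) := by linarith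
            _ ≤ _ := mul_le_mul_of_nonneg_right (by linarith) h10
    _ = _ := by ring

/-- binomial coefficients `N choose D` with `N ≤ A ℓ`, `D ≤ δ ℓ` -/
theorem choose_exp {N D : ℕ} {t a d : ℝ} (ht : 0 < t) (ht1 : t ≤ 1) (hN : (N : ℝ) ≤ a)
    (hD : (D : ℝ) ≤ d) :
    ((N.choose D : ℕ) : ℝ) ≤ Real.exp (t * a + d * Real.log (1 / t)) := by
  have h1 : ((N.choose D : ℕ) : ℝ) * t ^ D ≤ (1 + t) ^ N := by
    rcases le_or_gt D N with h | h
    · have e : (1 + t) ^ N = ∑ i ∈ range (N + 1), t ^ i * (N.choose i : ℕ) := by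
        rw [add_comm, add_pow]
        exact Finset.sum_congr rfl fun i _ => by ring
      rw [e, mul_comm]
      exact Finset.single_le_sum (f := fun i => t ^ i * ((N.choose i : ℕ) : ℝ))
        (fun i _ => by positivity) (Finset.mem_range.2 (by omega))
    · rw [Nat.choose_eq_zero_of_lt h]
      simp only [Nat.cast_zero, zero_mul]
      positivity
  have h2 : (1 + t) ^ N ≤ Real.exp (t * a) := by
    have h3 : 1 + t ≤ Real.exp t := by
      have := Real.add_one_le_exp t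
      linarith
    calc (1 + t) ^ N ≤ Real.exp t ^ N := pow_le_pow_left₀ (by positivity) h3 _
      _ = Real.exp (N * t) := by rw [← Real.exp_nat_mul]
      _ ≤ _ := Real.exp_le_exp.2 (by nlinarith)
  have hlog : 0 ≤ Real.log (1 / t) := Real.log_nonneg (by rw [le_div_iff₀ ht]; linarith)
  have h4 : (1 : ℝ) ≤ t ^ D * Real.exp (d * Real.log (1 / t)) := by
    have h5 : Real.exp (D * Real.log (1 / t)) ≤ Real.exp (d * Real.log (1 / t)) :=
      Real.exp_le_exp.2 (by nlinarith)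
    have h6 : t ^ D * Real.exp (D * Real.log (1 / t)) = 1 := by
      rw [Real.exp_nat_mul, Real.exp_log (by positivity), ← mul_pow, mul_one_div_cancel ht.ne',
        one_pow]
    calc (1 : ℝ) = t ^ D * Real.exp (D * Real.log (1 / t)) := h6.symm
      _ ≤ _ := mul_le_mul_of_nonneg_left h5 (by positivity)
  have h0 : (0 : ℝ) ≤ ((N.choose D : ℕ) : ℝ) := Nat.cast_nonneg _
  calc ((N.choose D : ℕ) : ℝ)
      ≤ ((N.choose D : ℕ) : ℝ) * (t ^ D * Real.exp (d * Real.log (1 / t))) :=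
        le_mul_of_one_le_right h0 h4
    _ = (((N.choose D : ℕ) : ℝ) * t ^ D) * Real.exp (d * Real.log (1 / t)) := by ring
    _ ≤ Real.exp (t * a) * Real.exp (d * Real.log (1 / t)) :=
        mul_le_mul_of_nonneg_right (h1.trans h2) (Real.exp_pos _).le
    _ = _ := by rw [← Real.exp_add]

/-- degree at most `δ log k` -/
theorem log_degree (F : Type) [Field F] [Fintype F] (η : ℝ) (hη : 0 < η) :
    ∃ δ : ℝ, 0 < δ ∧ ∃ k₀ : ℕ, ∀ k : ℕ, k₀ ≤ k → ∀ (m s D : ℕ)
      (f : Fin s → MvPolynomial (Fin 2 × Fin m) F) (G : SimpleGraph (Fin m → F)),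
      (D : ℝ) ≤ δ * Real.log k → (∀ j, (f j).totalDegree ≤ D) → GivenBy f G.Adj → NoMono G k →
      Real.log (Fintype.card (Fin m → F)) ≤ (s + 1) * (k : ℝ) ^ η := by
  obtain ⟨q, hq⟩ : ∃ q, q = Fintype.card F := ⟨_, rfl⟩
  have hq2 : 2 ≤ q := by rw [hq]; exact Fintype.one_lt_card
  have hq2' : (2 : ℝ) ≤ q := by exact_mod_cast hq2
  have hlq : 0 < Real.log q := Real.log_pos (by linarith)
  -- parameters
  obtain ⟨t, ht, ht1, htη⟩ : ∃ t : ℝ, 0 < t ∧ t ≤ 1 / 2 ∧ 7 * t ≤ η / 4 :=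
    ⟨min (1 / 2) (η / 28), by positivity, min_le_left _ _, by
      have := min_le_right (1 / 2) (η / 28)
      linarith⟩
  have hlt : 0 < Real.log (1 / t) := Real.log_pos (by rw [lt_div_iff₀ ht]; linarith)
  obtain ⟨δ, hδ, hδ1, hδη⟩ : ∃ δ : ℝ, 0 < δ ∧ δ ≤ 1 ∧ δ * Real.log (1 / t) ≤ η / 4 :=
    ⟨min 1 (η / 4 / Real.log (1 / t)), by positivity, min_le_left _ _, by
      have := min_le_right 1 (η / 4 / Real.log (1 / t))
      rw [← le_div_iff₀ hlt]
      exact this⟩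
  -- the threshold
  have hev : ∀ᶠ k : ℕ in Filter.atTop, 20 / η * Real.log q ≤ (k : ℝ) ^ (η / 4) :=
    ((tendsto_rpow_atTop (show 0 < η / 4 by positivity)).comp
      tendsto_natCast_atTop_atTop).eventually_ge_atTop _
  obtain ⟨k₁, hk₁⟩ := Filter.eventually_atTop.1 hev
  refine ⟨δ, hδ, max 2 k₁, fun k hk m s D f G hD hf hG hno => ?_⟩
  have hk2 : 2 ≤ k := (le_max_left _ _).trans hk
  have hkt := hk₁ k ((le_max_right _ _).trans hk)
  have hk' : (2 : ℝ) ≤ k := by exact_mod_cast hk2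
  have hk0 : (0 : ℝ) < k := by linarith
  set ℓ := Real.log k with hℓ
  have hℓ0 : 0 < ℓ := Real.log_pos (by linarith)
  obtain ⟨u1, u2⟩ := clog_bound hq2 hk2
  set u := Nat.clog q k with hu
  have hlt2 := card_lt f G hf hG hno (u := u) (by
    rw [← hq]; exact Nat.le_pow_clog (by omega) k)
  have hDl : (D : ℝ) ≤ ℓ := hD.trans (by nlinarith)
  have hchoose : (((2 * u + (D - 1)).choose (D - 1) : ℕ) : ℝ) ≤ (k : ℝ) ^ (η / 2) := by
    have h1 : ((2 * u + (D - 1) : ℕ) : ℝ) ≤ 7 * ℓ := by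
      have h2 : ((2 * u + (D - 1) : ℕ) : ℝ) ≤ ((2 * u + D : ℕ) : ℝ) := by
        exact_mod_cast (by omega : 2 * u + (D - 1) ≤ 2 * u + D)
      refine h2.trans ?_
      push_cast
      linarith
    have h3 : ((D - 1 : ℕ) : ℝ) ≤ δ * ℓ := by
      refine le_trans ?_ hD
      exact_mod_cast Nat.sub_le D 1
    refine (choose_exp ht (by linarith) h1 h3).trans ?_
    rw [Real.rpow_def_of_pos hk0]
    apply Real.exp_le_exp.2
    rw [← hℓ]
    have h4 : t * (7 * ℓ) ≤ η / 4 * ℓ := by nlinarith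
    have h5 : δ * ℓ * Real.log (1 / t) ≤ η / 4 * ℓ := by nlinarith
    linarith
  have hs : (0 : ℝ) ≤ s := Nat.cast_nonneg s
  have hkη : (1 : ℝ) ≤ (k : ℝ) ^ (η / 2) := Real.one_le_rpow (by linarith) (by positivity)
  have hmR : (m : ℝ) ≤ (s + 1) * (5 * ℓ * (k : ℝ) ^ (η / 2)) := by
    have h1 : (m : ℝ) ≤ s * (2 * D * ((2 * u + (D - 1)).choose (D - 1) : ℕ)) + u := by
      exact_mod_cast hlt2.le
    have h2 : (s : ℝ) * (2 * D * ((2 * u + (D - 1)).choose (D - 1) : ℕ)) ≤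
        s * (2 * ℓ * (k : ℝ) ^ (η / 2)) := by gcongr
    have h3 : (u : ℝ) ≤ 3 * ℓ * (k : ℝ) ^ (η / 2) := by nlinarith
    have h4 : (0 : ℝ) ≤ ℓ * (k : ℝ) ^ (η / 2) := by positivity
    nlinarith
  have hcard : Real.log (Fintype.card (Fin m → F)) = m * Real.log q := by
    rw [Fintype.card_fun, Fintype.card_fin, ← hq, Nat.cast_pow, Real.log_pow]
  rw [hcard]
  have hℓk : ℓ ≤ (k : ℝ) ^ (η / 4) / (η / 4) := Real.log_le_rpow_div hk0.le (by positivity)
  have e1 : (k : ℝ) ^ η = (k : ℝ) ^ (η / 4) * (k : ℝ) ^ (η / 4) * (k : ℝ) ^ (η / 2) := by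
    rw [← Real.rpow_add hk0, ← Real.rpow_add hk0]
    congr 1
    ring
  have hp4 : 0 < (k : ℝ) ^ (η / 4) := by positivity
  have h5 : 5 * ℓ * Real.log q ≤ (k : ℝ) ^ (η / 4) * (k : ℝ) ^ (η / 4) := by
    have h6 : 5 * ℓ ≤ 20 / η * (k : ℝ) ^ (η / 4) := by
      have : (k : ℝ) ^ (η / 4) / (η / 4) = 4 / η * (k : ℝ) ^ (η / 4) := by
        field_simp
      rw [this] at hℓk
      have e : 20 / η * (k : ℝ) ^ (η / 4) = 5 * (4 / η * (k : ℝ) ^ (η / 4)) := by ring
      rw [e]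
      linarith
    calc 5 * ℓ * Real.log q ≤ 20 / η * (k : ℝ) ^ (η / 4) * Real.log q :=
          mul_le_mul_of_nonneg_right h6 hlq.le
      _ = (20 / η * Real.log q) * (k : ℝ) ^ (η / 4) := by ring
      _ ≤ _ := mul_le_mul_of_nonneg_right hkt hp4.le
  calc (m : ℝ) * Real.log q ≤ (s + 1) * (5 * ℓ * (k : ℝ) ^ (η / 2)) * Real.log q :=
        mul_le_mul_of_nonneg_right hmR hlq.le
    _ = (s + 1) * ((5 * ℓ * Real.log q) * (k : ℝ) ^ (η / 2)) := by ring
    _ ≤ (s + 1) * (((k : ℝ) ^ (η / 4) * (k : ℝ) ^ (η / 4)) * (k : ℝ) ^ (η / 2)) := by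
        gcongr
    _ = _ := by rw [e1]

end Pool.Agent.X49.Deg
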