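import Pool.Agent.TH17.LD.Core

set_option autoImplicit false

/-!
# Restricting polynomial functions of several vectors to a subspace and one more direction
-/

namespace Pool.Agent.X49.Deg

open Finset Pool.Agent.TH17.LD

/-- the value of a monomial of degree at most `d`, given as a multiset of `d` variables or ones -/
def mon {F V : Type} [Field F] (w : V → F) {d : ℕ} (p : Sym (Option V) d) : F :=
  ((p : Multiset (Option V)).map fun o => o.elim 1 w).prod

theorem mon_cons {F V : Type} [Field F] (w : V → F) {d : ℕ} (o : Option V)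
    (p : Sym (Option V) d) : mon w (o ::ₛ p) = o.elim 1 w * mon w p := by
  unfold mon
  rw [Sym.coe_cons, Multiset.map_cons, Multiset.prod_cons]

/-- combinations of monomials of degree at most `d` in `w` with coefficients of degree at most `e`
in `v` -/
def Rep (F V μ : Type) [Field F] [Fintype μ] (d e : ℕ) :
    Submodule F ((V → F) → (μ → F) → F) :=
  Submodule.span F {ψ | ∃ (p : Sym (Option V) d) (c : (μ → F) → F), c ∈ P F μ e ∧
    ψ = fun w v => mon w p * c v}

variable {F V μ : Type} [Field F] [Fintype μ]

theorem Rep.exists_coeff [Fintype V] [DecidableEq V] {d e : ℕ} {ψ : (V → F) → (μ → F) → F}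
    (h : ψ ∈ Rep F V μ d e) : ∃ c : Sym (Option V) d → (μ → F) → F, (∀ p, c p ∈ P F μ e) ∧
      ∀ w v, ψ w v = ∑ p, mon w p * c p v := by
  induction h using Submodule.span_induction with
  | mem f hf =>
    obtain ⟨p, c, hc, rfl⟩ := hf
    refine ⟨fun q => if q = p then c else 0, fun q => ?_, fun w v => ?_⟩
    · by_cases h : q = p
      · simp only [h, if_true]; exact hc
      · simp only [h, if_false]; exact Submodule.zero_mem _
    · rw [Finset.sum_eq_single p]
      · simp
      · intro q _ hq
        simp [hq]
      · intro h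
        exact absurd (Finset.mem_univ _) h
  | zero => exact ⟨fun _ => 0, fun _ => Submodule.zero_mem _, fun w v => by simp⟩
  | add f g _ _ hf hg =>
    obtain ⟨c, h1, h2⟩ := hf
    obtain ⟨c', h1', h2'⟩ := hg
    refine ⟨fun p => c p + c' p, fun p => Submodule.add_mem _ (h1 p) (h1' p), fun w v => ?_⟩
    simp only [Pi.add_apply, mul_add, Finset.sum_add_distrib]
    rw [h2, h2']
  | smul a f _ hf =>
    obtain ⟨c, h1, h2⟩ := hf
    refine ⟨fun p => a • c p, fun p => Submodule.smul_mem _ _ (h1 p), fun w v => ?_⟩
    simp only [Pi.smul_apply, smul_eq_mul]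
    rw [h2, Finset.mul_sum]
    exact Finset.sum_congr rfl fun p _ => by ring

theorem Rep.coord_mul {d e : ℕ} {ψ : (V → F) → (μ → F) → F} (h : ψ ∈ Rep F V μ d e) (x : V) :
    (fun w v => w x * ψ w v) ∈ Rep F V μ (d + 1) e := by
  induction h using Submodule.span_induction with
  | mem f hf =>
    obtain ⟨p, c, hc, rfl⟩ := hf
    refine Submodule.subset_span ⟨some x ::ₛ p, c, hc, ?_⟩
    funext w v
    rw [mon_cons]
    simp only [Option.elim_some]
    ring
  | zero =>
    have e : (fun (w : V → F) (v : μ → F) => w x * (0 : (V → F) → (μ → F) → F) w v) = 0 := by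
      funext w v; simp
    rw [e]; exact Submodule.zero_mem _
  | add f g _ _ hf hg =>
    have e : (fun (w : V → F) (v : μ → F) => w x * (f + g) w v) =
        (fun w v => w x * f w v) + (fun w v => w x * g w v) := by
      funext w v; simp [mul_add]
    rw [e]; exact Submodule.add_mem _ hf hg
  | smul a f _ hf =>
    have e : (fun (w : V → F) (v : μ → F) => w x * (a • f) w v) =
        a • (fun w v => w x * f w v) := by
      funext w v; simp only [Pi.smul_apply, smul_eq_mul]; ring
    rw [e]; exact Submodule.smul_mem _ _ hf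

theorem Rep.lift {d e : ℕ} {ψ : (V → F) → (μ → F) → F} (h : ψ ∈ Rep F V μ d e) :
    ψ ∈ Rep F V μ (d + 1) e := by
  induction h using Submodule.span_induction with
  | mem f hf =>
    obtain ⟨p, c, hc, rfl⟩ := hf
    refine Submodule.subset_span ⟨none ::ₛ p, c, hc, ?_⟩
    funext w v
    rw [mon_cons]
    simp only [Option.elim_none, one_mul]
  | zero => exact Submodule.zero_mem _
  | add f g _ _ hf hg => exact Submodule.add_mem _ hf hg
  | smul a f _ hf => exact Submodule.smul_mem _ _ hf

theorem Rep.mono {d d' e e' : ℕ} (hd : d ≤ d') (he : e ≤ e') {ψ : (V → F) → (μ → F) → F}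
    (h : ψ ∈ Rep F V μ d e) : ψ ∈ Rep F V μ d' e' := by
  have h1 : ψ ∈ Rep F V μ d e' := by
    refine Submodule.span_mono ?_ h
    rintro f ⟨p, c, hc, rfl⟩
    exact ⟨p, c, P_mono he hc, rfl⟩
  obtain ⟨t, rfl⟩ := Nat.exists_eq_add_of_le hd
  clear hd
  induction t with
  | zero => exact h1
  | succ t ih => exact Rep.lift ih

theorem Rep.coeff_mul [DecidableEq μ] {d e : ℕ} {ψ : (V → F) → (μ → F) → F}
    (h : ψ ∈ Rep F V μ d e) (j : μ) :
    (fun w v => v j * ψ w v) ∈ Rep F V μ d (e + 1) := by
  induction h using Submodule.span_induction with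
  | mem f hf =>
    obtain ⟨p, c, hc, rfl⟩ := hf
    refine Submodule.subset_span ⟨p, (fun v => v j) * c, ?_, ?_⟩
    · have := mul_mem (coord_mem (F := F) j) hc
      rwa [add_comm] at this
    · funext w v
      simp only [Pi.mul_apply]
      ring
  | zero =>
    have e : (fun (w : V → F) (v : μ → F) => v j * (0 : (V → F) → (μ → F) → F) w v) = 0 := by
      funext w v; simp
    rw [e]; exact Submodule.zero_mem _
  | add f g _ _ hf hg =>
    have e : (fun (w : V → F) (v : μ → F) => v j * (f + g) w v) =
        (fun w v => v j * f w v) + (fun w v => v j * g w v) := by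
      funext w v; simp [mul_add]
    rw [e]; exact Submodule.add_mem _ hf hg
  | smul a f _ hf =>
    have e : (fun (w : V → F) (v : μ → F) => v j * (a • f) w v) =
        a • (fun w v => v j * f w v) := by
      funext w v; simp only [Pi.smul_apply, smul_eq_mul]; ring
    rw [e]; exact Submodule.smul_mem _ _ hf

theorem Rep.one : (fun _ _ => 1 : (V → F) → (μ → F) → F) ∈ Rep F V μ 0 0 := by
  refine Submodule.subset_span ⟨Sym.nil, fun _ => 1, const_mem _ _, ?_⟩
  funext w v
  simp [mon]

/-! ### the points -/

variable {ι : Type} [Fintype ι] [DecidableEq ι] {k : ℕ}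

/-- the tuple of vectors with coefficients `w` with respect to `u` and the new direction `v` -/
def pt (u : Fin k → μ → F) (w : ι × Option (Fin k) → F) (v : μ → F) : ι × μ → F :=
  fun a => ∑ l, w (a.1, some l) * u l a.2 + w (a.1, none) * v a.2

/-- the same without the new direction -/
def pt0 (u : Fin k → μ → F) (w : ι × Option (Fin k) → F) : ι × μ → F :=
  fun a => ∑ l, w (a.1, some l) * u l a.2

theorem lin_mul {V : Type} {d e : ℕ} {ψ : (V → F) → (μ → F) → F} (h : ψ ∈ Rep F V μ d e)
    (x : Fin k → V) (a : Fin k → F) :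
    (fun w v => (∑ l, w (x l) * a l) * ψ w v) ∈ Rep F V μ (d + 1) e := by
  have e1 : (fun (w : V → F) (v : μ → F) => (∑ l, w (x l) * a l) * ψ w v) =
      ∑ l, a l • (fun w v => w (x l) * ψ w v) := by
    funext w v
    rw [Finset.sum_apply, Finset.sum_apply, Finset.sum_mul]
    refine Finset.sum_congr rfl fun l _ => ?_
    simp only [Pi.smul_apply, smul_eq_mul]
    ring
  rw [e1]
  exact Submodule.sum_mem _ fun l _ => Submodule.smul_mem _ _ (Rep.coord_mul h (x l))

theorem expand_mono [DecidableEq μ] (u : Fin k → μ → F) : ∀ (n : ℕ) (s : ι × μ → ℕ),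
    ∑ a, s a = n →
    (fun w v => mono s (pt u w v)) ∈ Rep F (ι × Option (Fin k)) μ n n ∧
    ∃ ψ : ι → (ι × Option (Fin k) → F) → (μ → F) → F,
      (∀ i, ψ i ∈ Rep F (ι × Option (Fin k)) μ (n - 1) n) ∧ (n = 0 → ∀ i, ψ i = 0) ∧
      ∀ w v, mono s (pt u w v) - mono s (pt0 u w) = ∑ i, w (i, none) * ψ i w v := by
  intro n
  induction n with
  | zero =>
    intro s hs
    have h0 : s = 0 := by
      funext i
      exact Finset.sum_eq_zero_iff.1 hs i (Finset.mem_univ i)
    subst h0
    have e : ∀ z : ι × μ → F, mono 0 z = 1 := by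
      intro z
      simp [Pool.Agent.TH17.LD.mono]
    refine ⟨?_, fun _ => 0, fun i => Submodule.zero_mem _, fun _ _ => rfl, fun w v => ?_⟩
    · simp only [e]
      exact Rep.one
    · simp [e]
  | succ n ih =>
    intro s hs
    obtain ⟨b, hb⟩ : ∃ b, s b ≠ 0 := by
      by_contra h
      push Not at h
      simp [h] at hs
    obtain ⟨s', hs'⟩ : ∃ s' : ι × μ → ℕ, s = s' + Pi.single b 1 := by
      refine ⟨Function.update s b (s b - 1), ?_⟩
      funext j
      by_cases hj : j = b
      · subst hj
        simp only [Pi.add_apply, Function.update_self, Pi.single_eq_same]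
        omega
      · simp [hj]
    have hsum : ∑ j, s' j = n := by
      rw [hs'] at hs
      simp only [Pi.add_apply, Finset.sum_add_distrib] at hs
      rw [Finset.sum_pi_single'] at hs
      simpa using hs
    obtain ⟨h1, ψ, h2, h3, h4⟩ := ih s' hsum
    have e : ∀ z : ι × μ → F, mono s z = z b * mono s' z := by
      intro z
      rw [hs']
      simp only [Pool.Agent.TH17.LD.mono, Pi.add_apply, pow_add, Finset.prod_mul_distrib]
      rw [mul_comm]
      congr 1
      rw [Finset.prod_eq_single b]
      · simp
      · intro j _ hj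
        simp [hj]
      · simp
    refine ⟨?_, fun i w v => (∑ l, w (b.1, some l) * u l b.2) * ψ i w v +
      (if i = b.1 then v b.2 * mono s' (pt u w v) else 0), fun i => ?_, fun h => by omega,
      fun w v => ?_⟩
    · have e2 : (fun (w : ι × Option (Fin k) → F) (v : μ → F) => mono s (pt u w v)) =
          (fun w v => (∑ l, w (b.1, some l) * u l b.2) * mono s' (pt u w v)) +
          (fun w v => w (b.1, none) * (v b.2 * mono s' (pt u w v))) := by
        funext w v
        rw [e]
        simp only [pt, Pi.add_apply]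
        ring
      rw [e2]
      refine Submodule.add_mem _ ?_ ?_
      · exact Rep.mono le_rfl (Nat.le_succ n)
          (lin_mul h1 (fun l => (b.1, some l)) (fun l => u l b.2))
      · exact Rep.coord_mul (Rep.coeff_mul h1 b.2) (b.1, none)
    · refine Submodule.add_mem _ ?_ ?_
      · rcases Nat.eq_zero_or_pos n with hn | hn
        · have h5 := h3 hn i
          have e3 : (fun (w : ι × Option (Fin k) → F) (v : μ → F) =>
              (∑ l, w (b.1, some l) * u l b.2) * ψ i w v) = 0 := by
            funext w v
            rw [h5]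
            simp
          rw [e3]
          exact Submodule.zero_mem _
        · have h5 := lin_mul (h2 i) (fun l => ((b.1, some l) : ι × Option (Fin k)))
            (fun l => u l b.2)
          exact Rep.mono (by omega) (Nat.le_succ n) h5
      · by_cases hi : i = b.1
        · simp only [hi, if_true]
          exact Rep.coeff_mul h1 b.2
        · simp only [hi, if_false]
          exact Submodule.zero_mem _
    · rw [e, e]
      simp only [mul_add, Finset.sum_add_distrib]
      have e4 : ∑ i, w (i, none) * (if i = b.1 then v b.2 * mono s' (pt u w v) else 0) =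
          w (b.1, none) * (v b.2 * mono s' (pt u w v)) := by
        rw [Finset.sum_eq_single b.1]
        · simp
        · intro i _ hi
          simp [hi]
        · intro h
          exact absurd (Finset.mem_univ _) h
      have e5 : ∑ i, w (i, none) * ((∑ l, w (b.1, some l) * u l b.2) * ψ i w v) =
          (∑ l, w (b.1, some l) * u l b.2) * (mono s' (pt u w v) - mono s' (pt0 u w)) := by
        rw [h4, Finset.mul_sum]
        exact Finset.sum_congr rfl fun i _ => by ring
      rw [e4, e5]
      have e6 : pt u w v b = ∑ l, w (b.1, some l) * u l b.2 + w (b.1, none) * v b.2 := rfl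
      have e7 : pt0 u w b = ∑ l, w (b.1, some l) * u l b.2 := rfl
      rw [e6, e7]
      ring

theorem expand [DecidableEq μ] (u : Fin k → μ → F) {D : ℕ} {φ : (ι × μ → F) → F}
    (h : φ ∈ P F (ι × μ) D) : ∃ ψ : ι → (ι × Option (Fin k) → F) → (μ → F) → F,
      (∀ i, ψ i ∈ Rep F (ι × Option (Fin k)) μ (D - 1) D) ∧
      ∀ w v, φ (pt u w v) - φ (pt0 u w) = ∑ i, w (i, none) * ψ i w v := by
  induction h using Submodule.span_induction with
  | mem f hf =>
    obtain ⟨s, hs, rfl⟩ := hf
    obtain ⟨-, ψ, h1, -, h2⟩ := expand_mono u _ s rfl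
    exact ⟨ψ, fun i => Rep.mono (by omega) hs (h1 i), h2⟩
  | zero => exact ⟨fun _ => 0, fun _ => Submodule.zero_mem _, fun w v => by simp⟩
  | add f g _ _ hf hg =>
    obtain ⟨ψ, h1, h2⟩ := hf
    obtain ⟨ψ', h1', h2'⟩ := hg
    refine ⟨fun i => ψ i + ψ' i, fun i => Submodule.add_mem _ (h1 i) (h1' i), fun w v => ?_⟩
    simp only [Pi.add_apply, mul_add, Finset.sum_add_distrib]
    rw [← h2, ← h2']
    ring
  | smul a f _ hf =>
    obtain ⟨ψ, h1, h2⟩ := hf
    refine ⟨fun i => a • ψ i, fun i => Submodule.smul_mem _ _ (h1 i), fun w v => ?_⟩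
    simp only [Pi.smul_apply, smul_eq_mul]
    rw [← mul_sub, h2, Finset.mul_sum]
    exact Finset.sum_congr rfl fun i _ => by ring

end Pool.Agent.X49.Deg
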