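import Pool.Agent.X49.Deg.Rep

set_option autoImplicit false

/-!
# A homogeneous subspace for functions of several vectors of low degree
-/

namespace Pool.Agent.X49.Deg

open Finset Pool.Agent.TH17.LD Module

variable {F μ ι : Type} [Field F] [Fintype F] [Fintype μ] [DecidableEq μ] [Fintype ι]
  [DecidableEq ι]

theorem card_sym_option (V : Type) [Fintype V] [DecidableEq V] (d : ℕ) :
    Fintype.card (Sym (Option V) d) = (Fintype.card V + d).choose d := by
  rw [Sym.card_sym_eq_choose, Fintype.card_option]
  congr 1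
  omega

theorem pt_zero {k : ℕ} (u : Fin k → μ → F) (w : ι × Option (Fin k) → F) :
    pt u w 0 = pt0 u w := by
  funext a
  simp [pt, pt0]

theorem step {k D : ℕ} {J : Type} [Fintype J] (φ : J → (ι × μ → F) → F)
    (hφ : ∀ j, φ j ∈ P F (ι × μ) D) (u : Fin k → μ → F)
    (h0 : ∀ j w, φ j (pt0 u w) = 0)
    (hm : Fintype.card J * (Fintype.card ι *
      ((Fintype.card ι * (k + 1) + (D - 1)).choose (D - 1) * D)) + k < Fintype.card μ) :
    ∃ v : μ → F, v ∉ Submodule.span F (Set.range u) ∧ ∀ j w, φ j (pt u w v) = 0 := by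
  classical
  choose ψ h1 h2 using fun j => expand (F := F) u (hφ j)
  choose c hc1 hc2 using fun j i => Rep.exists_coeff (h1 j i)
  let A := J × (ι × Sym (Option (ι × Option (Fin k))) (D - 1))
  have hA : Fintype.card A * D = Fintype.card J * (Fintype.card ι *
      ((Fintype.card ι * (k + 1) + (D - 1)).choose (D - 1) * D)) := by
    simp only [A, Fintype.card_prod]
    rw [card_sym_option]
    simp only [Fintype.card_prod, Fintype.card_option, Fintype.card_fin]
    ring
  have hw := warning2 (F := F) (σ := μ) (J := A)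
    (fun a v => c a.1 a.2.1 a.2.2 v - c a.1 a.2.1 a.2.2 0) (fun _ => D)
    (fun a => Submodule.sub_mem _ (hc1 a.1 a.2.1 a.2.2) (const_mem _ _)) 0
    (fun a => sub_self _)
  rw [Finset.sum_const, Finset.card_univ, smul_eq_mul, hA] at hw
  have hq1 : 1 < Fintype.card F := Fintype.one_lt_card
  obtain ⟨v, hv, hvW⟩ : ∃ v : μ → F, (∀ a : A, c a.1 a.2.1 a.2.2 v - c a.1 a.2.1 a.2.2 0 = 0) ∧
      v ∉ Submodule.span F (Set.range u) := by
    by_contra hcon
    push Not at hcon
    have h4 : Nat.card {v : μ → F // ∀ a : A, c a.1 a.2.1 a.2.2 v - c a.1 a.2.1 a.2.2 0 = 0} ≤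
        Nat.card (Submodule.span F (Set.range u)) :=
      Nat.card_le_card_of_injective
        (fun v => (⟨v.1, hcon v.1 v.2⟩ : Submodule.span F (Set.range u))) fun v v' h => by
          apply Subtype.ext
          exact congrArg (fun w : Submodule.span F (Set.range u) => (w : μ → F)) h
    have h5 : Nat.card (Submodule.span F (Set.range u)) ≤ Fintype.card F ^ k := by
      rw [Module.natCard_eq_pow_finrank (K := F), Nat.card_eq_fintype_card]
      refine Nat.pow_le_pow_right (by omega) ?_
      have := finrank_range_le_card (R := F) u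
      rw [Fintype.card_fin] at this
      exact this
    have h6 : Fintype.card F ^ k < Fintype.card F ^ (Fintype.card μ - Fintype.card J *
        (Fintype.card ι * ((Fintype.card ι * (k + 1) + (D - 1)).choose (D - 1) * D))) :=
      Nat.pow_lt_pow_right hq1 (by omega)
    exact absurd (hw.trans (h4.trans h5)) (not_le.2 h6)
  refine ⟨v, hvW, fun j w => ?_⟩
  have e1 : ∀ i, ψ j i w v = ψ j i w 0 := by
    intro i
    rw [hc2, hc2]
    refine Finset.sum_congr rfl fun p _ => ?_
    have := hv (j, i, p)
    rw [sub_eq_zero] at this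
    simp only at this
    rw [this]
  have e2 := h2 j w v
  have e3 := h2 j w 0
  simp only [e1] at e2
  rw [← e3, pt_zero, h0 j w, sub_zero, sub_self] at e2
  exact e2

/-- the induction -/
theorem exists_dirs {D : ℕ} {J : Type} [Fintype J] (φ : J → (ι × μ → F) → F)
    (hφ : ∀ j, φ j ∈ P F (ι × μ) D) (h0 : ∀ j, φ j 0 = 0) : ∀ k : ℕ,
    Fintype.card J * (Fintype.card ι *
      ((Fintype.card ι * k + (D - 1)).choose (D - 1) * D)) + k ≤ Fintype.card μ →
    ∃ u : Fin k → μ → F, LinearIndependent F u ∧ ∀ j w, φ j (pt0 (ι := ι) u w) = 0 := by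
  intro k
  induction k with
  | zero =>
    intro _
    refine ⟨Fin.elim0, linearIndependent_empty_type, fun j w => ?_⟩
    have : pt0 (F := F) (ι := ι) (μ := μ) Fin.elim0 w = 0 := by
      funext a
      simp [pt0]
    rw [this]
    exact h0 j
  | succ k ih =>
    intro hm
    have hmono : (Fintype.card ι * k + (D - 1)).choose (D - 1) ≤
        (Fintype.card ι * (k + 1) + (D - 1)).choose (D - 1) := by
      apply Nat.choose_le_choose
      have : Fintype.card ι * k ≤ Fintype.card ι * (k + 1) := Nat.mul_le_mul_left _ (by omega)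
      omega
    have hm1 : Fintype.card J * (Fintype.card ι *
        ((Fintype.card ι * k + (D - 1)).choose (D - 1) * D)) + k ≤ Fintype.card μ := by
      have : Fintype.card J * (Fintype.card ι *
          ((Fintype.card ι * k + (D - 1)).choose (D - 1) * D)) ≤ Fintype.card J *
          (Fintype.card ι * ((Fintype.card ι * (k + 1) + (D - 1)).choose (D - 1) * D)) := by
        gcongr
      omega
    obtain ⟨u, hu, hu0⟩ := ih hm1
    obtain ⟨v, hv, hv0⟩ := step φ hφ u hu0 (by omega)
    refine ⟨Fin.snoc u v, ?_, fun j w => ?_⟩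
    · exact hu.finSnoc hv
    · have e : pt0 (ι := ι) (Fin.snoc u v : Fin (k + 1) → μ → F) w =
          pt u (fun a => a.2.elim (w (a.1, some (Fin.last k)))
            fun l => w (a.1, some l.castSucc)) v := by
        funext a
        simp only [pt0, pt, Fin.sum_univ_castSucc, Fin.snoc_castSucc, Fin.snoc_last,
          Option.elim_some, Option.elim_none]
      rw [e]
      exact hv0 j _

/-- **Homogeneous subspaces.** -/
theorem exists_subspace {D : ℕ} {J : Type} [Fintype J] (φ : J → (ι × μ → F) → F)
    (hφ : ∀ j, φ j ∈ P F (ι × μ) D) (h0 : ∀ j, φ j 0 = 0) (k : ℕ)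
    (hm : Fintype.card J * (Fintype.card ι *
      ((Fintype.card ι * k + (D - 1)).choose (D - 1) * D)) + k ≤ Fintype.card μ) :
    ∃ U : Submodule F (μ → F), finrank F U = k ∧
      ∀ x : ι → μ → F, (∀ i, x i ∈ U) → ∀ j, φ j (fun a => x a.1 a.2) = 0 := by
  obtain ⟨u, hu, hu0⟩ := exists_dirs φ hφ h0 k hm
  refine ⟨Submodule.span F (Set.range u), ?_, fun x hx j => ?_⟩
  · rw [finrank_span_eq_card hu, Fintype.card_fin]
  · choose c hc using fun i => (Submodule.mem_span_range_iff_exists_fun F).1 (hx i)
    have e : (fun a : ι × μ => x a.1 a.2) =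
        pt0 u (fun a => a.2.elim 0 fun l => c a.1 l) := by
      funext a
      simp only [pt0, Option.elim_some]
      rw [← hc a.1, Finset.sum_apply]
      exact Finset.sum_congr rfl fun l _ => by simp
    rw [e]
    exact hu0 j _

end Pool.Agent.X49.Deg
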